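import Pool.Agent.H96.HK.TargetsN

/-!
# MP_e94f6f_an: module NIS
-/

set_option autoImplicit false

open MeasureTheory Set Filter Topology
open scoped ContDiff

namespace Pool.Agent.H83.HK

open Pool.Agent.H96.HK

/-- a point with vanishing last coordinates -/
noncomputable def pnt (n : ℕ) (s φ : ℝ) : E (n + 2) :=
  WithLp.toLp 2 (fun i => if i = 0 then s else if i = 1 then φ else 0)

lemma pX_pnt (n : ℕ) (s φ : ℝ) : pX (pnt n s φ) = (s, φ) := by
  unfold pX pnt
  simp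

lemma zz_pnt (n : ℕ) (s φ s' φ' : ℝ) : zz (pnt n s φ) (pnt n s' φ') = 0 := by
  unfold zz pnt
  apply Finset.sum_eq_zero
  intro i _
  have h0 : (i.succ.succ : Fin (n + 2)) ≠ 0 := Fin.succ_ne_zero _
  have h1 : (i.succ.succ : Fin (n + 2)) ≠ 1 := by
    intro h
    have := congrArg Fin.val h
    simp at this
  simp [h0, h1]

theorem nis (hDIS : T_DIS) (hDQ : T_DQ) : T_NIS := by
  intro F hF n hflat
  obtain ⟨f, -, hf⟩ := hflat
  have hq := hDQ F hF
  have h2 : √2 ≤ (2 : ℝ) := by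
    rw [Real.sqrt_le_left (by norm_num)]; norm_num
  have s2 : √2 * √2 = (2 : ℝ) := Real.mul_self_sqrt (by norm_num)
  have s2' : (√2) ^ 2 = (2 : ℝ) := Real.sq_sqrt (by norm_num)
  -- distance formula
  have hd : ∀ s φ s' φ' : ℝ, √2 ≤ s → √2 ≤ s' →
      dist (f (pnt n s φ)) (f (pnt n s' φ')) =
        √(min (cm (s, φ) (s', φ')) (cp (s, φ) (s', φ'))) := by
    intro s φ s' φ' hs hs'
    rw [hf, hDIS F hF, zz_pnt, pX_pnt, pX_pnt, add_zero]
    rw [hq.cone (s, φ) (s', φ') hs hs']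
  have c1 : Real.cos (Real.pi / 4) = √2 / 2 := Real.cos_pi_div_four
  have c2 : Real.cos (Real.pi / 2) = 0 := Real.cos_pi_div_two
  have c3 : Real.cos (3 * Real.pi / 4) = -(√2 / 2) := by
    rw [show 3 * Real.pi / 4 = Real.pi - Real.pi / 4 by ring, Real.cos_pi_sub, c1]
  have e1 : dist (f (pnt n 2 0)) (f (pnt n 2 (Real.pi / 2))) = √8 := by
    rw [hd _ _ _ _ h2 h2]
    unfold cm cp
    simp only
    rw [show (0 : ℝ) - Real.pi / 2 = -(Real.pi / 2) by ring, Real.cos_neg, c2]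
    norm_num
  have half : √8 / 2 = √2 := by
    rw [show (8 : ℝ) = 2 ^ 2 * 2 by norm_num, Real.sqrt_mul (by norm_num), Real.sqrt_sq (by norm_num)]
    ring
  have e2 : dist (f (pnt n 2 0)) (f (pnt n (√2) (Real.pi / 4))) = √2 := by
    rw [hd _ _ _ _ h2 le_rfl]
    unfold cm cp
    simp only
    rw [show (0 : ℝ) - Real.pi / 4 = -(Real.pi / 4) by ring, Real.cos_neg, c1]
    congr 1
    rw [min_eq_left]
    · nlinarith
    · nlinarith
  have e3 : dist (f (pnt n (√2) (Real.pi / 4))) (f (pnt n 2 (Real.pi / 2))) = √2 := by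
    rw [hd _ _ _ _ le_rfl h2]
    unfold cm cp
    simp only
    rw [show Real.pi / 4 - Real.pi / 2 = -(Real.pi / 4) by ring, Real.cos_neg, c1]
    congr 1
    rw [min_eq_left]
    · nlinarith
    · nlinarith
  have e4 : dist (f (pnt n 2 0)) (f (pnt n (√2) (-(Real.pi / 4)))) = √2 := by
    rw [hd _ _ _ _ h2 le_rfl]
    unfold cm cp
    simp only
    rw [show (0 : ℝ) - -(Real.pi / 4) = Real.pi / 4 by ring, c1]
    congr 1
    rw [min_eq_left]
    · nlinarith
    · nlinarith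
  have e5 : dist (f (pnt n (√2) (-(Real.pi / 4)))) (f (pnt n 2 (Real.pi / 2))) = √2 := by
    rw [hd _ _ _ _ le_rfl h2]
    unfold cm cp
    simp only
    rw [show -(Real.pi / 4) - Real.pi / 2 = -(3 * Real.pi / 4) by ring, Real.cos_neg, c3]
    congr 1
    rw [min_eq_right]
    · nlinarith
    · nlinarith
  have e6 : dist (f (pnt n (√2) (Real.pi / 4))) (f (pnt n (√2) (-(Real.pi / 4)))) = 2 := by
    rw [hd _ _ _ _ le_rfl le_rfl]
    unfold cm cp
    simp only
    rw [show Real.pi / 4 - -(Real.pi / 4) = Real.pi / 2 by ring, c2]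
    have h4 : min (√2 ^ 2 + √2 ^ 2 - 2 * √2 * √2 * 0) (√2 ^ 2 + √2 ^ 2 + 2 * √2 * √2 * 0) = 4 := by
      rw [min_eq_left]
      · rw [s2']; norm_num
      · nlinarith
    rw [h4, show (4 : ℝ) = 2 ^ 2 by norm_num, Real.sqrt_sq (by norm_num)]
  have m1 : f (pnt n (√2) (Real.pi / 4)) =
      midpoint ℝ (f (pnt n 2 0)) (f (pnt n 2 (Real.pi / 2))) :=
    eq_midpoint_of_dist_eq_half (by rw [e1, e2, half]) (by rw [e1, e3, half])
  have m2 : f (pnt n (√2) (-(Real.pi / 4))) =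
      midpoint ℝ (f (pnt n 2 0)) (f (pnt n 2 (Real.pi / 2))) :=
    eq_midpoint_of_dist_eq_half (by rw [e1, e4, half]) (by rw [e1, e5, half])
  rw [m1, m2, dist_self] at e6
  norm_num at e6

end Pool.Agent.H83.HK
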