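import Pool.Agent.H96.HK.Targets

/-!
# MP_e94f6f_an: module WS3
-/

set_option autoImplicit false

open MeasureTheory Set Filter Topology
open scoped ContDiff

namespace Pool.Agent.H83.HK

open Pool.Agent.H96.HK

lemma dd_cont {F : ℝ → ℝ} (D : DD F) (y : X) : Continuous (fun z => dd F z y) := by
  rw [continuous_iff_continuousAt]
  intro z0
  have h1 : ∀ z : X, |dd F z y - dd F z0 y| ≤ |z0.1 - z.1| + (1 + |z0.1|) * |z0.2 - z.2| := by
    intro z
    refine le_trans ?_ (D.le1 z0 z)
    rw [abs_le]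
    constructor
    · have := D.tri z0 z y
      linarith
    · have := D.tri z z0 y
      have h2 := D.symm z z0
      linarith
  have h2 : Tendsto (fun z : X => |z0.1 - z.1| + (1 + |z0.1|) * |z0.2 - z.2|) (𝓝 z0) (𝓝 0) := by
    have : Continuous (fun z : X => |z0.1 - z.1| + (1 + |z0.1|) * |z0.2 - z.2|) := by fun_prop
    have h3 := this.tendsto z0
    simpa using h3
  rw [ContinuousAt, tendsto_iff_dist_tendsto_zero]
  refine squeeze_zero (fun _ => dist_nonneg) (fun z => ?_) h2
  rw [Real.dist_eq]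
  exact h1 z

lemma gauss2 (a b : ℝ) (ha : 0 < a) (hb : 0 < b) :
    Integrable (fun w : ℝ × ℝ => Real.exp (-a * w.1 ^ 2) * Real.exp (-b * w.2 ^ 2)) ∧
    ∫ w : ℝ × ℝ, Real.exp (-a * w.1 ^ 2) * Real.exp (-b * w.2 ^ 2) =
      √(Real.pi / a) * √(Real.pi / b) := by
  constructor
  · exact (integrable_exp_neg_mul_sq ha).mul_prod (integrable_exp_neg_mul_sq hb)
  · rw [Measure.volume_eq_prod, integral_prod_mul (fun x : ℝ => Real.exp (-a * x ^ 2))
      (fun x : ℝ => Real.exp (-b * x ^ 2)), integral_gaussian, integral_gaussian]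

lemma lim_term {F : ℝ → ℝ} (hF : Prof F) (D : DD F) (hLOC : T_LOC) (y : X) (G : X → ℝ)
    (hGc : Continuous G) (A : ℝ) (hA : ∀ z, |G z| ≤ A) :
    Tendsto (fun δ : ℝ => ∫ z : X, E2 δ (dd F z y ^ 2) * G z) (𝓝[>] 0) (𝓝 (G y / F y.1)) := by
  have hF0 : 0 < F 0 := hF.pos 0
  have hFy : 0 < F y.1 := hF.pos y.1
  -- substitution
  have hsub : ∀ δ : ℝ, 0 < δ → ∫ z : X, E2 δ (dd F z y ^ 2) * G z =
      ∫ w : X, (4 * Real.pi)⁻¹ * (Real.exp (-((dd F (y + √δ • w) y / √δ) ^ 2 / 4)) *
        G (y + √δ • w)) := by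
    intro δ hδ
    have hs : 0 < √δ := Real.sqrt_pos.mpr hδ
    have h1 := integral_add_left_eq_self (μ := (volume : Measure X))
      (fun z : X => E2 δ (dd F z y ^ 2) * G z) y
    have h2 := Measure.integral_comp_smul (volume : Measure X)
      (fun z : X => E2 δ (dd F (y + z) y ^ 2) * G (y + z)) (√δ)
    have hfr : Module.finrank ℝ X = 2 := by
      have h0 : Module.finrank ℝ (ℝ × ℝ) = 2 := by rw [Module.finrank_prod]; simp
      exact h0
    rw [hfr, Real.sq_sqrt hδ.le, h1, abs_of_pos (inv_pos.mpr hδ), smul_eq_mul] at h2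
    have h3 : ∫ z : X, E2 δ (dd F z y ^ 2) * G z =
        δ * ∫ x : X, E2 δ (dd F (y + √δ • x) y ^ 2) * G (y + √δ • x) := by
      rw [h2]; field_simp
    rw [h3, ← integral_const_mul]
    congr 1
    funext w
    unfold E2
    have h4 : dd F (y + √δ • w) y ^ 2 / (4 * δ) = (dd F (y + √δ • w) y / √δ) ^ 2 / 4 := by
      rw [div_pow, Real.sq_sqrt hδ.le]; field_simp
    rw [h4]
    field_simp
  have hlim : Tendsto (fun δ : ℝ => ∫ w : X, (4 * Real.pi)⁻¹ *
      (Real.exp (-((dd F (y + √δ • w) y / √δ) ^ 2 / 4)) * G (y + √δ • w))) (𝓝[>] 0)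
      (𝓝 (∫ w : X, (4 * Real.pi)⁻¹ *
        ((Real.exp (-(1 / 4) * w.1 ^ 2) * Real.exp (-(F y.1 ^ 2 / 4) * w.2 ^ 2)) * G y))) := by
    apply tendsto_integral_filter_of_dominated_convergence
      (bound := fun w : X => (4 * Real.pi)⁻¹ *
        ((Real.exp (-(1 / 8) * w.1 ^ 2) * Real.exp (-(F 0 ^ 2 / 8) * w.2 ^ 2)) * A))
    · apply Eventually.of_forall
      intro δ
      apply Continuous.aestronglyMeasurable
      have hc := dd_cont D y
      have h1 : Continuous (fun w : X => dd F (y + √δ • w) y) :=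
        hc.comp (by fun_prop : Continuous (fun w : X => y + √δ • w))
      have h2 : Continuous (fun w : X => G (y + √δ • w)) :=
        hGc.comp (by fun_prop : Continuous (fun w : X => y + √δ • w))
      exact continuous_const.mul ((Real.continuous_exp.comp
        ((((h1.div_const _).pow 2).div_const 4).neg)).mul h2)
    · filter_upwards [self_mem_nhdsWithin] with δ hδ
      apply Eventually.of_forall
      intro w
      have hδ' : (0 : ℝ) < δ := hδ
      have hs : 0 < √δ := Real.sqrt_pos.mpr hδ'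
      rw [norm_mul, norm_mul, Real.norm_eq_abs, Real.norm_eq_abs, Real.norm_eq_abs,
        abs_of_pos (by positivity : (0 : ℝ) < (4 * Real.pi)⁻¹), Real.abs_exp, ← Real.exp_add]
      have h1 := D.ge1 (y + √δ • w) y
      have h2 := D.ge2 (y + √δ • w) y
      have e1 : |(y + √δ • w).1 - y.1| = √δ * |w.1| := by
        simp only [Prod.fst_add, Prod.smul_fst, smul_eq_mul, add_sub_cancel_left, abs_mul,
          abs_of_pos hs]
      have e2 : |(y + √δ • w).2 - y.2| = √δ * |w.2| := by
        simp only [Prod.snd_add, Prod.smul_snd, smul_eq_mul, add_sub_cancel_left, abs_mul,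
          abs_of_pos hs]
      rw [e1] at h1
      rw [e2] at h2
      have h3 : |w.1| ≤ dd F (y + √δ • w) y / √δ := by
        rw [le_div_iff₀ hs]; linarith
      have h4 : F 0 * |w.2| ≤ dd F (y + √δ • w) y / √δ := by
        rw [le_div_iff₀ hs]; linarith
      set q := dd F (y + √δ • w) y / √δ with hq
      have h5 : w.1 ^ 2 ≤ q ^ 2 := by
        rw [← sq_abs w.1]
        exact pow_le_pow_left₀ (abs_nonneg _) h3 2
      have h6 : F 0 ^ 2 * w.2 ^ 2 ≤ q ^ 2 := by
        rw [← sq_abs w.2, ← mul_pow]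
        exact pow_le_pow_left₀ (by positivity) h4 2
      have h7 : Real.exp (-(q ^ 2 / 4)) ≤
          Real.exp (-(1 / 8) * w.1 ^ 2 + -(F 0 ^ 2 / 8) * w.2 ^ 2) := by
        apply Real.exp_le_exp.mpr
        nlinarith
      have hpi := Real.pi_pos
      exact mul_le_mul_of_nonneg_left
        (mul_le_mul h7 (hA _) (abs_nonneg _) (Real.exp_pos _).le) (by positivity)
    · exact ((gauss2 (1 / 8) (F 0 ^ 2 / 8) (by norm_num) (by positivity)).1.mul_const A).const_mul _
    · apply Eventually.of_forall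
      intro w
      apply Tendsto.const_mul
      have hsq : Tendsto (fun δ : ℝ => √δ) (𝓝[>] 0) (𝓝 0) := by
        have h1 : Tendsto (fun δ : ℝ => √δ) (𝓝 0) (𝓝 (√0)) := Real.continuous_sqrt.tendsto 0
        rw [Real.sqrt_zero] at h1
        exact h1.mono_left nhdsWithin_le_nhds
      have hpt : Tendsto (fun δ : ℝ => y + √δ • w) (𝓝[>] 0) (𝓝 y) := by
        have h1 : Tendsto (fun δ : ℝ => √δ • w) (𝓝[>] 0) (𝓝 ((0 : ℝ) • w)) :=
          hsq.smul_const w
        rw [zero_smul] at h1
        have := h1.const_add y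
        rwa [add_zero] at this
      apply Tendsto.mul
      · set N : ℝ := √(w.1 ^ 2 + F y.1 ^ 2 * w.2 ^ 2) with hN
        have hN0 : 0 ≤ N := Real.sqrt_nonneg _
        have key : Tendsto (fun δ : ℝ => dd F (y + √δ • w) y / √δ) (𝓝[>] 0) (𝓝 N) := by
          have lo : Tendsto (fun δ : ℝ => N * (1 - √δ * N / F 0)) (𝓝[>] 0) (𝓝 N) := by
            have h1 : Tendsto (fun δ : ℝ => N * (1 - √δ * N / F 0)) (𝓝[>] 0)
                (𝓝 (N * (1 - 0 * N / F 0))) :=
              (((hsq.mul_const N).div_const (F 0)).const_sub 1).const_mul N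
            simpa using h1
          have hi : Tendsto (fun δ : ℝ => N * (1 + √δ * N / F 0)) (𝓝[>] 0) (𝓝 N) := by
            have h1 : Tendsto (fun δ : ℝ => N * (1 + √δ * N / F 0)) (𝓝[>] 0)
                (𝓝 (N * (1 + 0 * N / F 0))) :=
              (((hsq.mul_const N).div_const (F 0)).const_add 1).const_mul N
            simpa using h1
          have hn : ∀ δ : ℝ, 0 < δ → nn F y (y + √δ • w) = √δ * N := by
            intro δ hδ
            unfold nn
            rw [hN, ← Real.sqrt_mul hδ.le]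
            congr 1
            simp only [Prod.fst_add, Prod.smul_fst, smul_eq_mul, add_sub_cancel_left, mul_pow,
              Real.sq_sqrt hδ.le, Prod.snd_add, Prod.smul_snd]
            ring
          refine tendsto_of_tendsto_of_tendsto_of_le_of_le' lo hi ?_ ?_
          · filter_upwards [self_mem_nhdsWithin] with δ hδ
            have hδ' : (0 : ℝ) < δ := hδ
            have hs : 0 < √δ := Real.sqrt_pos.mpr hδ'
            have h1 := (hLOC F hF y (y + √δ • w)).1
            rw [hn δ hδ', D.symm] at h1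
            rw [le_div_iff₀ hs]
            linarith
          · filter_upwards [self_mem_nhdsWithin] with δ hδ
            have hδ' : (0 : ℝ) < δ := hδ
            have hs : 0 < √δ := Real.sqrt_pos.mpr hδ'
            have h1 := (hLOC F hF y (y + √δ • w)).2.1
            rw [hn δ hδ', D.symm] at h1
            rw [div_le_iff₀ hs]
            linarith
        have h2 : Tendsto (fun δ : ℝ => Real.exp (-((dd F (y + √δ • w) y / √δ) ^ 2 / 4)))
            (𝓝[>] 0) (𝓝 (Real.exp (-(N ^ 2 / 4)))) :=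
          (Real.continuous_exp.tendsto _).comp (((key.pow 2).div_const 4).neg)
        have h3 : Real.exp (-(N ^ 2 / 4)) =
            Real.exp (-(1 / 4) * w.1 ^ 2) * Real.exp (-(F y.1 ^ 2 / 4) * w.2 ^ 2) := by
          rw [← Real.exp_add, hN, Real.sq_sqrt (by positivity)]
          congr 1
          ring
        rw [← h3]
        exact h2
      · exact (hGc.tendsto y).comp hpt
  have hval : ∫ w : X, (4 * Real.pi)⁻¹ *
        ((Real.exp (-(1 / 4) * w.1 ^ 2) * Real.exp (-(F y.1 ^ 2 / 4) * w.2 ^ 2)) * G y) =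
      G y / F y.1 := by
    rw [integral_const_mul, integral_mul_const,
      (gauss2 (1 / 4) (F y.1 ^ 2 / 4) (by norm_num) (by positivity)).2,
      ← Real.sqrt_mul (by positivity)]
    have h1 : Real.pi / (1 / 4) * (Real.pi / (F y.1 ^ 2 / 4)) = (4 * Real.pi / F y.1) ^ 2 := by
      field_simp
    rw [h1, Real.sqrt_sq (by positivity)]
    field_simp
  rw [hval] at hlim
  refine hlim.congr' ?_
  filter_upwards [self_mem_nhdsWithin] with δ hδ
  exact (hsub δ hδ).symm

theorem ws3 (hDD : T_DD) (hLOC : T_LOC) (hWS1 : T_WS1) : T_WS3 := by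
  intro F hF y ψ hψ hψc hψ0 η hη
  have D := hDD F hF
  have hFc : Continuous F := hF.smooth.continuous
  have hGc : Continuous (fun z : X => ψ z * F z.1) := hψ.mul (hFc.comp continuous_fst)
  have hGs : HasCompactSupport (fun z : X => ψ z * F z.1) := hψc.mul_right
  obtain ⟨A, hA⟩ : ∃ A : ℝ, ∀ z : X, |ψ z * F z.1| ≤ A := by
    obtain ⟨A, hA⟩ := hGc.bounded_above_of_compact_support hGs
    exact ⟨A, fun z => by simpa [Real.norm_eq_abs] using hA z⟩
  have hlim := lim_term hF D hLOC y (fun z : X => ψ z * F z.1) hGc A hA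
  have hFy : 0 < F y.1 := hF.pos y.1
  have hval : ψ y * F y.1 / F y.1 = ψ y := by field_simp
  simp only [hval] at hlim
  have hev : ∀ᶠ δ : ℝ in 𝓝[>] 0, ψ y - η < ∫ z : X, E2 δ (dd F z y ^ 2) * (ψ z * F z.1) :=
    hlim.eventually (lt_mem_nhds (by linarith))
  filter_upwards [hev, self_mem_nhdsWithin] with δ h1 hδ
  have hδ' : (0 : ℝ) < δ := hδ
  refine h1.le.trans ?_
  obtain ⟨hsum, hcont, -, -⟩ := hWS1 F hF y
  have hWc : Continuous (fun z : X => WS F y δ z) := by
    rw [← continuousOn_univ]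
    have h2 : ContinuousOn (fun z : X => (δ, z)) univ := by fun_prop
    exact hcont.comp h2 (fun z _ => ⟨hδ', mem_univ _⟩)
  have hE0 : ∀ r2 : ℝ, 0 ≤ E2 δ r2 := by
    intro r2
    unfold E2
    positivity
  have hEc : Continuous (fun z : X => E2 δ (dd F z y ^ 2)) := by
    unfold E2
    exact continuous_const.mul (Real.continuous_exp.comp
      ((((dd_cont D y).pow 2).div_const _).neg))
  have hle : ∀ z : X, E2 δ (dd F z y ^ 2) ≤ WS F y δ z := by
    intro z
    unfold WS
    have h3 := (hsum δ hδ' z).le_tsum 0 (fun k _ => hE0 _)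
    have h4 : gk 0 y = y := by
      unfold gk
      simp
    rw [h4] at h3
    exact h3
  have hint1 : Integrable (fun z : X => E2 δ (dd F z y ^ 2) * (ψ z * F z.1)) :=
    (hEc.mul hGc).integrable_of_hasCompactSupport hGs.mul_left
  have hint2 : Integrable (fun z : X => WS F y δ z * ψ z * F z.1) := by
    have h5 : Integrable (fun z : X => WS F y δ z * (ψ z * F z.1)) :=
      (hWc.mul hGc).integrable_of_hasCompactSupport hGs.mul_left
    refine h5.congr (Eventually.of_forall fun z => ?_)
    simp only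
    ring
  apply integral_mono hint1 hint2
  intro z
  have h6 : 0 ≤ ψ z * F z.1 := mul_nonneg (hψ0 z) (hF.pos _).le
  have := mul_le_mul_of_nonneg_right (hle z) h6
  simp only
  linarith [this]

end Pool.Agent.H83.HK
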